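import Pool.Agent.Helper12.XG.St2

set_option autoImplicit false

namespace Pool.Agent.Helper60.XG

open Finset Polynomial Pool.Agent.Helper12.XG Pool.Agent.Helper14.GS

theorem hNU2 : StNU2 := by
  intro r C y Λ E G q t hP hq ht hlog
  have hΛ : (1200 : ℝ) ≤ Λ := by exact_mod_cast hP.hΛ
  have hΛE : (Λ : ℝ) ≤ E := by
    rw [hP.hE]
    push_cast
    calc (Λ : ℝ) = (Λ : ℝ) ^ 1 := (pow_one _).symm
      _ ≤ (Λ : ℝ) ^ (r + 1) := pow_le_pow_right₀ (by linarith) (by omega)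
  have hE : (1200 : ℝ) ≤ E := hΛ.trans hΛE
  have hE0 : (0 : ℝ) < E := by linarith
  have hΛ0 : (0 : ℝ) < Λ := by linarith
  have hy : (1 : ℝ) ≤ y := le_trans (Real.one_le_exp (by linarith)) hP.lo
  have ht0 : (0 : ℝ) < t := by linarith
  have hlt : 0 ≤ Real.log t := Real.log_nonneg ht
  have hq0 : (2 : ℝ) ≤ q := by exact_mod_cast hq
  -- X ≤ exp (-1)
  have hX0 : (0 : ℝ) ≤ 2 * ((E : ℝ) * Λ) ^ 2 / (E : ℝ) ^ 7 := by positivity
  have hX : 2 * ((E : ℝ) * Λ) ^ 2 / (E : ℝ) ^ 7 ≤ Real.exp (-1) := by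
    have h3 : 2 * ((E : ℝ) * Λ) ^ 2 / (E : ℝ) ^ 7 ≤ 1 / 3 := by
      rw [div_le_div_iff₀ (by positivity) (by norm_num)]
      calc 2 * ((E : ℝ) * Λ) ^ 2 * 3 = 6 * (E : ℝ) ^ 2 * (Λ : ℝ) ^ 2 := by ring
        _ ≤ 6 * (E : ℝ) ^ 2 * (E : ℝ) ^ 2 := by gcongr
        _ ≤ (E : ℝ) ^ 3 * (E : ℝ) ^ 2 * (E : ℝ) ^ 2 := by
            have h6 : (6 : ℝ) ≤ (E : ℝ) ^ 3 := by
              calc (6 : ℝ) ≤ (E : ℝ) ^ 1 := by rw [pow_one]; linarith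
                _ ≤ (E : ℝ) ^ 3 := pow_le_pow_right₀ (by linarith) (by norm_num)
            gcongr
        _ = 1 * (E : ℝ) ^ 7 := by ring
    have h4 : (1 : ℝ) / 3 ≤ Real.exp (-1) := by
      rw [Real.exp_neg, one_div]
      exact inv_anti₀ (Real.exp_pos 1) (by linarith [Real.exp_one_lt_d9])
    linarith
  have hXn : (2 * ((E : ℝ) * Λ) ^ 2 / (E : ℝ) ^ 7) ^ (E * Λ * (q + 1)) ≤
      Real.exp (-(E * Λ * (q + 1))) := by
    calc (2 * ((E : ℝ) * Λ) ^ 2 / (E : ℝ) ^ 7) ^ (E * Λ * (q + 1))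
        ≤ (Real.exp (-1)) ^ (E * Λ * (q + 1)) := pow_le_pow_left₀ hX0 hX _
      _ = Real.exp (-(E * Λ * (q + 1))) := by
          rw [← Real.exp_nat_mul]
          congr 1
          push_cast
          ring
  have hk : (1 : ℝ) / (Λ : ℝ) ^ r ≤ 1 := by
    rw [div_le_one (by positivity)]
    exact one_le_pow₀ (by linarith)
  have hmain : t * (2 * ((E : ℝ) * Λ) ^ 2 / (E : ℝ) ^ 7) ^ (E * Λ * (q + 1)) ≤
      t ^ (-(1 / (Λ : ℝ) ^ r)) := by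
    have e1 : t = Real.exp (Real.log t) := (Real.exp_log ht0).symm
    calc t * (2 * ((E : ℝ) * Λ) ^ 2 / (E : ℝ) ^ 7) ^ (E * Λ * (q + 1))
        ≤ t * Real.exp (-(E * Λ * (q + 1))) := by gcongr
      _ = Real.exp (Real.log t - E * Λ * (q + 1)) := by
          rw [sub_eq_add_neg, Real.exp_add, Real.exp_log ht0]
      _ ≤ Real.exp (Real.log t * -(1 / (Λ : ℝ) ^ r)) := by
          apply Real.exp_le_exp.mpr
          have h5 : Real.log t * (1 / (Λ : ℝ) ^ r) ≤ Real.log t := by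
            calc Real.log t * (1 / (Λ : ℝ) ^ r) ≤ Real.log t * 1 := by gcongr
              _ = Real.log t := mul_one _
          have h6 : (E : ℝ) * Λ * q / 8 * 2 ≤ E * Λ * (q + 1) := by
            have h7 : (0 : ℝ) ≤ E * Λ := by positivity
            nlinarith
          have h8 : Real.log t * -(1 / (Λ : ℝ) ^ r) = -(Real.log t * (1 / (Λ : ℝ) ^ r)) := by ring
          rw [h8]
          linarith
      _ = t ^ (-(1 / (Λ : ℝ) ^ r)) := by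
          rw [Real.rpow_def_of_pos ht0]
  have hB : 0 ≤ BdR E q := by unfold BdR; positivity
  have hpos : (0 : ℝ) ≤ ((E : ℝ) ^ 2 + 1) * q * BdR E q := by positivity
  have hbig : (1 : ℝ) ≤ 2 * 2 ^ (2 * q) * (y : ℝ) ^ (4 * q) * y := by
    have a1 : (1 : ℝ) ≤ 2 ^ (2 * q) := one_le_pow₀ (by norm_num)
    have a2 : (1 : ℝ) ≤ (y : ℝ) ^ (4 * q) := one_le_pow₀ hy
    have a3 : (1 : ℝ) ≤ 2 * 2 ^ (2 * q) := by linarith
    have a4 : (1 : ℝ) ≤ 2 * 2 ^ (2 * q) * (y : ℝ) ^ (4 * q) := one_le_mul_of_one_le_of_one_le a3 a2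
    exact one_le_mul_of_one_le_of_one_le a4 hy
  calc t * (((E : ℝ) ^ 2 + 1) * q * BdR E q *
        (2 * ((E : ℝ) * Λ) ^ 2 / (E : ℝ) ^ 7) ^ (E * Λ * (q + 1)))
      = ((E : ℝ) ^ 2 + 1) * q * BdR E q *
        (t * (2 * ((E : ℝ) * Λ) ^ 2 / (E : ℝ) ^ 7) ^ (E * Λ * (q + 1))) := by ring
    _ ≤ ((E : ℝ) ^ 2 + 1) * q * BdR E q * t ^ (-(1 / (Λ : ℝ) ^ r)) := by gcongr
    _ = ((E : ℝ) ^ 2 + 1) * q * BdR E q * t ^ (-(1 / (Λ : ℝ) ^ r)) * 1 := (mul_one _).symm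
    _ ≤ ((E : ℝ) ^ 2 + 1) * q * BdR E q * t ^ (-(1 / (Λ : ℝ) ^ r)) *
        (2 * 2 ^ (2 * q) * (y : ℝ) ^ (4 * q) * y) := by gcongr
    _ = EpR E q y t (1 / (Λ : ℝ) ^ r) := by unfold EpR WaR; ring

end Pool.Agent.Helper60.XG
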